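import Mathlib

set_option autoImplicit false

namespace Pool.Agent.TransFree

open Finset Filter

/-- Product of `1 - 1/p` over the primes below `n` tends to `0` (Euler). -/
theorem exists_small_prod (ε : ℝ) (hε : 0 < ε) : ∃ n : ℕ,
    ∏ p ∈ (range n).filter Nat.Prime, (1 - (p : ℝ)⁻¹) ≤ ε := by
  have hdiv : Tendsto (fun n : ℕ => ∑ i ∈ range n,
      Set.indicator {p : ℕ | p.Prime} (fun n : ℕ => (1 : ℝ) / n) i) atTop atTop := by
    rw [← not_summable_iff_tendsto_nat_atTop_of_nonneg]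
    · exact not_summable_one_div_on_primes
    · intro n
      exact Set.indicator_nonneg (fun _ _ => by positivity) n
  obtain ⟨n, hn⟩ := (hdiv.eventually_ge_atTop (-Real.log ε)).exists
  refine ⟨n, ?_⟩
  have h1 : ∏ p ∈ (range n).filter Nat.Prime, (1 - (p : ℝ)⁻¹)
      ≤ ∏ p ∈ (range n).filter Nat.Prime, Real.exp (-(p : ℝ)⁻¹) := by
    apply Finset.prod_le_prod
    · intro p hp
      have hp2 : 2 ≤ p := (Finset.mem_filter.1 hp).2.two_le
      have : (p : ℝ)⁻¹ ≤ 1 := inv_le_one_of_one_le₀ (by exact_mod_cast (by omega : 1 ≤ p))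
      linarith
    · intro p _
      have := Real.add_one_le_exp (-(p : ℝ)⁻¹)
      linarith
  have h2 : ∏ p ∈ (range n).filter Nat.Prime, Real.exp (-(p : ℝ)⁻¹)
      = Real.exp (-∑ p ∈ (range n).filter Nat.Prime, (p : ℝ)⁻¹) := by
    rw [← Real.exp_sum, Finset.sum_neg_distrib]
  have h3 : ∑ p ∈ (range n).filter Nat.Prime, (p : ℝ)⁻¹ = ∑ i ∈ range n,
      Set.indicator {p : ℕ | p.Prime} (fun n : ℕ => (1 : ℝ) / n) i := by
    rw [Finset.sum_filter]
    apply Finset.sum_congr rfl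
    intro i _
    by_cases hi : i.Prime
    · rw [if_pos hi, Set.indicator_of_mem (show i ∈ {p : ℕ | p.Prime} from hi), one_div]
    · rw [if_neg hi, Set.indicator_of_notMem (show i ∉ {p : ℕ | p.Prime} from hi)]
  rw [h2, h3] at h1
  calc _ ≤ _ := h1
    _ ≤ Real.exp (Real.log ε) := by
        apply Real.exp_le_exp.2; linarith
    _ = ε := Real.exp_log hε

open Classical in
/-- The numbers with a divisor in `[2, Q]` have density at least `1 - ε` for suitable `Q`. -/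
theorem exists_density (ε : ℝ) (hε : 0 < ε) : ∃ Q N₀ : ℕ, ∀ N : ℕ, N₀ ≤ N →
    (1 - ε) * N ≤ (((range N).filter (fun n => ∃ d, 2 ≤ d ∧ d ≤ Q ∧ d ∣ n)).card : ℝ) := by
  obtain ⟨Q, hQ⟩ := exists_small_prod (ε / 2) (by positivity)
  set s := (range Q).filter Nat.Prime with hs
  have hsp : ∀ p ∈ s, p.Prime := fun p hp => (Finset.mem_filter.1 hp).2
  set P := ∏ p ∈ s, p with hP
  have hP0 : P ≠ 0 := by
    rw [hP]
    exact Finset.prod_ne_zero_iff.2 (fun p hp => (hsp p hp).ne_zero)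
  have htot : (Nat.totient P : ℝ) = P * ∏ p ∈ s, (1 - (p : ℝ)⁻¹) := by
    have := Nat.totient_eq_mul_prod_factors P
    rw [hP, Nat.primeFactors_prod hsp, ← hP] at this
    have h2 := congrArg (fun x : ℚ => (x : ℝ)) this
    push_cast at h2
    exact h2
  refine ⟨Q, ⌈2 * (Nat.totient P : ℝ) / ε⌉₊, fun N hN => ?_⟩
  have hN' : 2 * (Nat.totient P : ℝ) / ε ≤ N := (Nat.le_ceil _).trans (by exact_mod_cast hN)
  have hbad : ((range N).filter (fun n => ¬ ∃ d, 2 ≤ d ∧ d ≤ Q ∧ d ∣ n)).card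
      ≤ Nat.totient P * (N / P + 1) := by
    have h1 := Nat.Ico_filter_coprime_le 0 N hP0
    refine le_trans (Finset.card_le_card ?_) h1
    intro n hn
    rw [Finset.mem_filter, Finset.mem_range] at hn
    rw [Finset.mem_filter, Finset.mem_Ico]
    refine ⟨⟨Nat.zero_le _, by omega⟩, ?_⟩
    rw [hP]
    apply Nat.Coprime.prod_left
    intro p hp
    rw [Nat.Prime.coprime_iff_not_dvd (hsp p hp)]
    intro hpn
    apply hn.2
    refine ⟨p, (hsp p hp).two_le, ?_, hpn⟩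
    have := Finset.mem_range.1 (Finset.mem_filter.1 hp).1
    omega
  have hsplit := Finset.card_filter_add_card_filter_not (s := range N)
    (fun n => ∃ d, 2 ≤ d ∧ d ≤ Q ∧ d ∣ n)
  rw [Finset.card_range] at hsplit
  have hbad' : (((range N).filter (fun n => ¬ ∃ d, 2 ≤ d ∧ d ≤ Q ∧ d ∣ n)).card : ℝ)
      ≤ ε * N := by
    have hPpos : (0 : ℝ) < P := by exact_mod_cast Nat.pos_of_ne_zero hP0
    have h1 : (((range N).filter (fun n => ¬ ∃ d, 2 ≤ d ∧ d ≤ Q ∧ d ∣ n)).card : ℝ)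
        ≤ (Nat.totient P : ℝ) * ((N / P : ℕ) + 1) := by exact_mod_cast hbad
    have h2 : ((N / P : ℕ) : ℝ) ≤ (N : ℝ) / P := Nat.cast_div_le
    have h3 : (Nat.totient P : ℝ) ≤ P * (ε / 2) := by
      rw [htot]; exact mul_le_mul_of_nonneg_left hQ hPpos.le
    have h4 : (Nat.totient P : ℝ) ≤ ε / 2 * N := by
      rw [div_le_iff₀ hε] at hN'
      linarith
    have h5 : (0 : ℝ) ≤ Nat.totient P := Nat.cast_nonneg _
    calc _ ≤ (Nat.totient P : ℝ) * ((N / P : ℕ) + 1) := h1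
      _ ≤ (Nat.totient P : ℝ) * ((N : ℝ) / P + 1) := by gcongr
      _ = (Nat.totient P : ℝ) * ((N : ℝ) / P) + Nat.totient P := by ring
      _ ≤ P * (ε / 2) * ((N : ℝ) / P) + ε / 2 * N := by gcongr
      _ = ε * N := by field_simp; ring
  have : (((range N).filter (fun n => ∃ d, 2 ≤ d ∧ d ≤ Q ∧ d ∣ n)).card : ℝ)
      + (((range N).filter (fun n => ¬ ∃ d, 2 ≤ d ∧ d ≤ Q ∧ d ∣ n)).card : ℝ) = N := by
    exact_mod_cast hsplit
  linarith

end Pool.Agent.TransFree
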