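import Pool.Agent.TransFree.Three
import Pool.Agent.TransFree.Density

set_option autoImplicit false

namespace Pool.Agent.TransFree

open Finset

theorem sum_zmod_even {n : ℕ} [NeZero n] (hn : Even n) : ∑ x : ZMod n, x ≠ 0 := by
  obtain ⟨k, hk⟩ := hn
  have hn0 : n ≠ 0 := NeZero.ne n
  have h1 : ∑ x : ZMod n, x = ∑ i ∈ range n, (i : ZMod n) := by
    symm
    refine Finset.sum_bij (s := range n) (t := (univ : Finset (ZMod n)))
      (f := fun i : ℕ => (i : ZMod n)) (g := fun x => x)
      (fun (i : ℕ) _ => (i : ZMod n)) ?_ ?_ ?_ ?_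
    · intro i _; exact mem_univ _
    · intro i hi j hj hij
      exact Gen.cast_inj (Finset.mem_range.1 hi) (Finset.mem_range.1 hj) hij
    · intro b _
      exact ⟨b.val, Finset.mem_range.2 (ZMod.val_lt b), ZMod.natCast_zmod_val b⟩
    · intro i _; rfl
  rw [h1, ← Nat.cast_sum, Finset.sum_range_id]
  intro h
  rw [ZMod.natCast_eq_zero_iff] at h
  have h2 : n * (n - 1) / 2 = k * (n - 1) := by
    have : n * (n - 1) = 2 * (k * (n - 1)) := by rw [← mul_assoc]; congr 1; omega
    rw [this, Nat.mul_div_cancel_left _ (by norm_num)]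
  rw [h2] at h
  have hkpos : 0 < k := by omega
  have h3 : 2 * k ∣ k * (n - 1) := by rwa [show n = 2 * k by omega] at h ⊢
  rw [mul_comm 2 k] at h3
  have h4 := Nat.dvd_of_mul_dvd_mul_left hkpos h3
  omega

/-- In the cyclic square of even order no entry lies in a transversal. -/
theorem even_bound (n : ℕ) (hn0 : 0 < n) (hn : Even n) :
    ∃ L : Fin n → Fin n → Fin n,
      (∀ i, Function.Injective (L i)) ∧
      (∀ j, Function.Injective (fun i => L i j)) ∧
      n * n ≤ ({p : Fin n × Fin n |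
              ¬ ∃ σ : Equiv.Perm (Fin n),
                  Function.Injective (fun i => L i (σ i)) ∧ σ p.1 = p.2}).ncard := by
  classical
  have : NeZero n := ⟨by omega⟩
  have hc : n * n = (univ : Finset (ZMod n × ZMod n)).card := by
    rw [Finset.card_univ, Fintype.card_prod, ZMod.card]
  rw [hc]
  apply transport (G := ZMod n) (ZMod.card n) (fun r c => r + c)
  · intro r a b h; exact add_left_cancel h
  · intro c a b h; exact add_right_cancel h
  · intro p _ σ hσ hL _
    have bσ : Function.Bijective σ := Finite.injective_iff_bijective.1 hσ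
    have bL : Function.Bijective (fun r => r + σ r) := Finite.injective_iff_bijective.1 hL
    have e1 : ∑ r, σ r = ∑ g : ZMod n, g := bσ.sum_comp (fun g => g)
    have e2 : ∑ r, (r + σ r) = ∑ g : ZMod n, g := bL.sum_comp (fun g => g)
    rw [Finset.sum_add_distrib, e1] at e2
    exact sum_zmod_even hn (add_eq_right.1 e2)

/-- `Good n t`: some latin square of order `n` has at least `t` entries lying in no
transversal. -/
def Good (n : ℕ) (t : ℝ) : Prop :=
  ∃ L : Fin n → Fin n → Fin n,
    (∀ i : Fin n, Function.Injective (L i)) ∧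
    (∀ j : Fin n, Function.Injective (fun i : Fin n => L i j)) ∧
    t ≤ (({p : Fin n × Fin n |
            ¬ ∃ σ : Equiv.Perm (Fin n),
                Function.Injective (fun i : Fin n => L i (σ i)) ∧ σ p.1 = p.2}.ncard : ℕ) : ℝ)

theorem Good.mono {n : ℕ} {s t : ℝ} (h : Good n t) (hst : s ≤ t) : Good n s := by
  obtain ⟨L, h1, h2, h3⟩ := h
  exact ⟨L, h1, h2, hst.trans h3⟩

/-- Main quantitative bound: `M(n) ≥ n² / (2 d²)` for each proper divisor `d ≥ 2` of `n ≥ 12`. -/
theorem good_of_dvd (n d : ℕ) (hn : 12 ≤ n) (hd : 2 ≤ d) (hdn : d ∣ n) (h2d : 2 * d ≤ n) :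
    Good n ((n : ℝ) ^ 2 / (2 * (d : ℝ) ^ 2)) := by
  -- a prime divisor of `d`
  obtain ⟨p, hp, hpd⟩ := Nat.exists_prime_and_dvd (show d ≠ 1 by omega)
  have hpn : p ∣ n := hpd.trans hdn
  have hple : p ≤ d := Nat.le_of_dvd (by omega) hpd
  have hp2 := hp.two_le
  have hnR : (12 : ℝ) ≤ n := by exact_mod_cast hn
  have hdR : (2 : ℝ) ≤ d := by exact_mod_cast hd
  have hpR : (2 : ℝ) ≤ p := by exact_mod_cast hp2
  have hpdR : (p : ℝ) ≤ d := by exact_mod_cast hple
  have hred : (n : ℝ) ^ 2 / (2 * (d : ℝ) ^ 2) ≤ (n : ℝ) ^ 2 / (2 * (p : ℝ) ^ 2) := by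
    apply div_le_div_of_nonneg_left (by positivity) (by positivity)
    gcongr
  apply Good.mono _ hred
  by_cases hev : Even n
  · obtain ⟨L, h1, h2, h3⟩ := even_bound n (by omega) hev
    refine ⟨L, h1, h2, ?_⟩
    have h3' : (n : ℝ) * n ≤ (({p : Fin n × Fin n |
            ¬ ∃ σ : Equiv.Perm (Fin n),
                Function.Injective (fun i : Fin n => L i (σ i)) ∧ σ p.1 = p.2}.ncard : ℕ) : ℝ) := by
      exact_mod_cast h3
    refine le_trans ?_ h3'
    rw [div_le_iff₀ (by positivity)]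
    have hp1 : (1 : ℝ) ≤ 2 * (p : ℝ) ^ 2 := by nlinarith
    have := mul_le_mul_of_nonneg_left hp1 (mul_self_nonneg (n : ℝ))
    rw [pow_two]; linarith
  · have hodd : Odd n := Nat.not_even_iff_odd.1 hev
    obtain ⟨m, rfl⟩ := hpn
    have hpo : Odd p := (Nat.odd_mul.1 hodd).1
    have hmo : Odd m := (Nat.odd_mul.1 hodd).2
    have hm2 : 2 ≤ m := by
      by_contra hlt
      have : m ≤ 1 := by omega
      have : p * m ≤ p * 1 := Nat.mul_le_mul_left _ this
      omega
    have hm2R : (2 : ℝ) ≤ m := by exact_mod_cast hm2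
    by_cases hp3 : p = 3
    · subst hp3
      have hm4 : 4 ≤ m := by omega
      have hm4R : (4 : ℝ) ≤ m := by exact_mod_cast hm4
      obtain ⟨L, h1, h2, h3⟩ := three_bound m (by omega) hmo
      refine ⟨L, h1, h2, ?_⟩
      refine le_trans ?_ (Nat.cast_le.2 h3)
      rw [Nat.cast_mul m (m - 2), Nat.cast_sub hm2]
      push_cast
      rw [div_le_iff₀ (by positivity)]
      nlinarith
    · have hp5 : 5 ≤ p := by
        rcases hpo with ⟨k, hk⟩
        omega
      obtain ⟨L, h1, h2, h3⟩ := general_bound p m hp5 hpo hmo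
      refine ⟨L, h1, h2, ?_⟩
      refine le_trans ?_ (Nat.cast_le.2 h3)
      rw [Nat.cast_mul m (m - 1), Nat.cast_sub (by omega : 1 ≤ m)]
      push_cast
      rw [div_le_iff₀ (by positivity)]
      have : (p : ℝ) ^ 2 * ((m : ℝ) ^ 2 - 2 * m) ≥ 0 := by
        apply mul_nonneg (by positivity)
        nlinarith
      nlinarith

end Pool.Agent.TransFree
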