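import Mathlib

set_option autoImplicit false

/-!
Latin squares of order `q * m` with many transversal-free entries: group-theoretic core.

Rows, columns and symbols are indexed by `ZMod m × ZMod q`; the symbol in row `r` and column `c`
is `θ c.2 r + c` for permutations `θ b` of the rows.
-/

namespace Pool.Agent.TransFree

open Finset

/-- The sum of all elements of `ZMod m × ZMod q` vanishes for odd `m`, `q`. -/
theorem sum_all_eq_zero {m q : ℕ} [NeZero m] [NeZero q] (hm : Odd m) (hq : Odd q) :
    ∑ g : ZMod m × ZMod q, g = 0 := by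
  set S : ZMod m × ZMod q := ∑ g : ZMod m × ZMod q, g with hS
  have h1 : S = -S := by
    have : ∑ g : ZMod m × ZMod q, g = ∑ g : ZMod m × ZMod q, (-g) :=
      (Equiv.sum_comp (Equiv.neg (ZMod m × ZMod q)) (fun g => g)).symm
    rw [Finset.sum_neg_distrib] at this
    exact this
  have key : ∀ {k : ℕ} (_ : Odd k) (a : ZMod k), a = -a → a = 0 := by
    intro k hk a ha
    have h2 : (2 : ℕ) • a = 0 := by
      rw [two_nsmul]; nth_rewrite 1 [ha]; exact neg_add_cancel a
    have hk' : (k : ℕ) • a = 0 := by simp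
    have hcop : Nat.Coprime 2 k := (Nat.coprime_two_left).2 hk
    have hd1 : addOrderOf a ∣ 2 := addOrderOf_dvd_of_nsmul_eq_zero h2
    have hd2 : addOrderOf a ∣ k := addOrderOf_dvd_of_nsmul_eq_zero hk'
    have h3 : addOrderOf a = 1 := Nat.eq_one_of_dvd_coprimes hcop hd1 hd2
    exact AddMonoid.addOrderOf_eq_one_iff.1 h3
  have h1a : S.1 = -S.1 := congrArg Prod.fst h1
  have h1b : S.2 = -S.2 := congrArg Prod.snd h1
  exact Prod.ext (key hm _ h1a) (key hq _ h1b)

/-- Summing displacements along a transversal. -/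
theorem sum_disp {m q : ℕ} [NeZero m] [NeZero q] (hm : Odd m) (hq : Odd q)
    (θ : ZMod q → Equiv.Perm (ZMod m × ZMod q))
    (σ : ZMod m × ZMod q → ZMod m × ZMod q) (hσ : Function.Injective σ)
    (hL : Function.Injective (fun r => θ (σ r).2 r + σ r)) :
    ∑ r : ZMod m × ZMod q, (θ (σ r).2 r - r) = 0 := by
  have bσ : Function.Bijective σ := Finite.injective_iff_bijective.1 hσ
  have bL : Function.Bijective (fun r => θ (σ r).2 r + σ r) := Finite.injective_iff_bijective.1 hL
  have e1 : ∑ r, σ r = ∑ g : ZMod m × ZMod q, g :=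
    bσ.sum_comp (fun g => g)
  have e2 : ∑ r, (θ (σ r).2 r + σ r) = ∑ g : ZMod m × ZMod q, g :=
    bL.sum_comp (fun g => g)
  rw [Finset.sum_sub_distrib, sum_all_eq_zero hm hq, sub_zero]
  rw [Finset.sum_add_distrib, e1] at e2
  exact add_eq_right.1 e2

/-- Number of elements of `ZMod m × ZMod q` with second coordinate `0`. -/
theorem card_snd_zero {m q : ℕ} [NeZero m] [NeZero q] :
    (univ.filter (fun c : ZMod m × ZMod q => c.2 = 0)).card = m := by
  have hinj : Function.Injective (fun x : ZMod m => ((x, 0) : ZMod m × ZMod q)) :=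
    fun a b h => congrArg Prod.fst h
  have : (univ.filter (fun c : ZMod m × ZMod q => c.2 = 0))
      = (univ : Finset (ZMod m)).image (fun x : ZMod m => ((x, 0) : ZMod m × ZMod q)) := by
    ext ⟨a, b⟩
    simp only [mem_filter, mem_univ, true_and, mem_image, Prod.mk.injEq, exists_eq_left]
    exact eq_comm
  rw [this, Finset.card_image_of_injective _ hinj, Finset.card_univ, ZMod.card]

end Pool.Agent.TransFree
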