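import Pool.Agent.TransFree.Core

set_option autoImplicit false

namespace Pool.Agent.TransFree

open Finset

namespace Gen

/-- The three special rows. -/
def r1 (m q : ℕ) : ZMod m × ZMod q := (-1, 0)
/-- The three special rows. -/
def r2 (m q : ℕ) : ZMod m × ZMod q := (0, 1)
/-- The three special rows. -/
def r3 (m q : ℕ) : ZMod m × ZMod q := (-1, -1)

/-- The shift of the rows of class `0`. -/
def shift (m q : ℕ) : Equiv.Perm (ZMod m × ZMod q) where
  toFun r := if r.2 = 0 then (r.1 + 1, r.2) else r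
  invFun r := if r.2 = 0 then (r.1 - 1, r.2) else r
  left_inv r := by
    by_cases h : r.2 = 0 <;> simp [h, Prod.ext_iff]
  right_inv r := by
    by_cases h : r.2 = 0 <;> simp [h, Prod.ext_iff]

theorem shift_zero {m q : ℕ} (x : ZMod m) : shift m q (x, 0) = (x + 1, 0) := by
  simp [shift]

theorem shift_ne {m q : ℕ} {r : ZMod m × ZMod q} (h : r.2 ≠ 0) : shift m q r = r := by
  simp [shift, h]

/-- The row permutations. -/
def theta (m q : ℕ) (b : ZMod q) : Equiv.Perm (ZMod m × ZMod q) :=
  if b = 0 then (shift m q).trans (Equiv.swap (0, 0) (r2 m q))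
  else if b = 1 then Equiv.swap (r1 m q) (r3 m q)
  else if Even b.val then Equiv.swap (r2 m q) (r3 m q)
  else 1

section vals

variable {m q : ℕ}

theorem natCast_ne_zero {q : ℕ} (k : ℕ) (hk : 0 < k) (hkq : k < q) : ((k : ℕ) : ZMod q) ≠ 0 := by
  intro h
  rw [ZMod.natCast_eq_zero_iff] at h
  exact absurd (Nat.le_of_dvd hk h) (by omega)

theorem one_ne (hq : 5 ≤ q) : (1 : ZMod q) ≠ 0 := by
  have := natCast_ne_zero (q := q) 1 (by norm_num) (by omega)
  simpa using this

theorem two_ne (hq : 5 ≤ q) : (2 : ZMod q) ≠ 0 := by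
  have := natCast_ne_zero (q := q) 2 (by norm_num) (by omega)
  simpa using this

theorem three_ne (hq : 5 ≤ q) : (3 : ZMod q) ≠ 0 := by
  have := natCast_ne_zero (q := q) 3 (by norm_num) (by omega)
  simpa using this

theorem neg_one_ne_one (hq : 5 ≤ q) : (-1 : ZMod q) ≠ 1 := by
  intro h
  apply two_ne hq
  have : (1 : ZMod q) + 1 = 0 := by nth_rewrite 1 [← h]; exact neg_add_cancel 1
  rw [← this]; norm_num

theorem r1_ne_r2 (hq : 5 ≤ q) : r1 m q ≠ r2 m q := by
  intro h
  have := congrArg Prod.snd h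
  exact one_ne hq this.symm

theorem r1_ne_r3 (hq : 5 ≤ q) : r1 m q ≠ r3 m q := by
  intro h
  have : (0 : ZMod q) = -1 := congrArg Prod.snd h
  exact one_ne hq (by rw [eq_comm, neg_eq_zero] at this; exact this)

theorem r2_ne_r3 (hq : 5 ≤ q) : r2 m q ≠ r3 m q := by
  intro h
  have : (1 : ZMod q) = -1 := congrArg Prod.snd h
  exact neg_one_ne_one hq this.symm

theorem r2_ne_zero (hq : 5 ≤ q) (x : ZMod m) : r2 m q ≠ (x, 0) := by
  intro h
  have : (1 : ZMod q) = 0 := congrArg Prod.snd h
  exact one_ne hq this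

theorem r3_ne_zero (hq : 5 ≤ q) (x : ZMod m) : r3 m q ≠ (x, 0) := by
  intro h
  have : (-1 : ZMod q) = 0 := congrArg Prod.snd h
  exact one_ne hq (neg_eq_zero.1 this)

theorem th0_r1 : theta m q 0 (r1 m q) = r2 m q := by
  simp [theta, r1, shift_zero]

theorem th0_r2 (hq : 5 ≤ q) : theta m q 0 (r2 m q) = (0, 0) := by
  have h : (r2 m q).2 ≠ 0 := one_ne hq
  simp [theta, shift_ne h]

theorem th0_of_ne {r : ZMod m × ZMod q} (h0 : r.2 ≠ 0) (h2 : r ≠ r2 m q) :
    theta m q 0 r = r := by
  simp only [theta, if_true, Equiv.trans_apply, shift_ne h0]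
  rw [Equiv.swap_apply_of_ne_of_ne]
  · intro h; exact h0 (congrArg Prod.snd h)
  · exact h2

theorem th0_zero (hq : 5 ≤ q) {x : ZMod m} (hx : x ≠ -1) : theta m q 0 (x, 0) = (x + 1, 0) := by
  simp only [theta, if_true, Equiv.trans_apply, shift_zero]
  rw [Equiv.swap_apply_of_ne_of_ne]
  · intro h
    exact hx (eq_neg_of_add_eq_zero_left (congrArg Prod.fst h))
  · exact (r2_ne_zero hq _).symm

theorem th1 (hq : 5 ≤ q) : theta m q 1 = Equiv.swap (r1 m q) (r3 m q) := by
  simp [theta, one_ne hq]

theorem th_even {b : ZMod q} (h0 : b ≠ 0) (h1 : b ≠ 1) (he : Even b.val) :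
    theta m q b = Equiv.swap (r2 m q) (r3 m q) := by
  simp [theta, h0, h1, he]

theorem th_odd {b : ZMod q} (h0 : b ≠ 0) (h1 : b ≠ 1) (he : ¬ Even b.val) :
    theta m q b = 1 := by
  simp [theta, h0, h1, he]

/-- Rows outside class `0` and different from the special rows are never moved. -/
theorem theta_generic (hq : 5 ≤ q) {r : ZMod m × ZMod q} (h0 : r.2 ≠ 0) (h2 : r ≠ r2 m q)
    (h3 : r ≠ r3 m q) (b : ZMod q) : theta m q b r = r := by
  have h1 : r ≠ r1 m q := fun h => h0 (congrArg Prod.snd h)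
  by_cases b0 : b = 0
  · subst b0; exact th0_of_ne h0 h2
  by_cases b1 : b = 1
  · subst b1; rw [th1 hq, Equiv.swap_apply_of_ne_of_ne h1 h3]
  by_cases be : Even b.val
  · rw [th_even b0 b1 be, Equiv.swap_apply_of_ne_of_ne h2 h3]
  · rw [th_odd b0 b1 be]; rfl

/-- Rows of class `0` other than `r1` only move in the columns of class `0`. -/
theorem theta_zero (hq : 5 ≤ q) {x : ZMod m} (hx : x ≠ -1) {b : ZMod q} (hb : b ≠ 0) :
    theta m q b (x, 0) = (x, 0) := by
  have h1 : ((x, 0) : ZMod m × ZMod q) ≠ r1 m q := fun h => hx (congrArg Prod.fst h)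
  have h2 := (r2_ne_zero (m := m) hq x).symm
  have h3 := (r3_ne_zero (m := m) hq x).symm
  by_cases b1 : b = 1
  · subst b1; rw [th1 hq, Equiv.swap_apply_of_ne_of_ne h1 h3]
  by_cases be : Even b.val
  · rw [th_even hb b1 be, Equiv.swap_apply_of_ne_of_ne h2 h3]
  · rw [th_odd hb b1 be]; rfl

theorem theta_r1 (hq : 5 ≤ q) (b : ZMod q) : theta m q b (r1 m q) =
    if b = 0 then r2 m q else if b = 1 then r3 m q else r1 m q := by
  by_cases b0 : b = 0
  · subst b0; simp [th0_r1]
  by_cases b1 : b = 1
  · subst b1; simp [th1 hq, one_ne hq]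
  rw [if_neg b0, if_neg b1]
  by_cases be : Even b.val
  · rw [th_even b0 b1 be, Equiv.swap_apply_of_ne_of_ne (r1_ne_r2 hq) (r1_ne_r3 hq)]
  · rw [th_odd b0 b1 be]; rfl

theorem theta_r2 (hq : 5 ≤ q) (b : ZMod q) : theta m q b (r2 m q) =
    if b = 0 then (0, 0) else if b = 1 then r2 m q else if Even b.val then r3 m q
      else r2 m q := by
  by_cases b0 : b = 0
  · subst b0; simp [th0_r2 hq]
  by_cases b1 : b = 1
  · subst b1
    rw [if_neg b0, if_pos rfl, th1 hq,
      Equiv.swap_apply_of_ne_of_ne (r1_ne_r2 hq).symm (r2_ne_r3 hq)]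
  rw [if_neg b0, if_neg b1]
  by_cases be : Even b.val
  · rw [th_even b0 b1 be, if_pos be, Equiv.swap_apply_left]
  · rw [th_odd b0 b1 be, if_neg be]; rfl

theorem theta_r3 (hq : 5 ≤ q) (b : ZMod q) : theta m q b (r3 m q) =
    if b = 0 then r3 m q else if b = 1 then r1 m q else if Even b.val then r2 m q
      else r3 m q := by
  by_cases b0 : b = 0
  · subst b0
    rw [if_pos rfl]
    exact th0_of_ne (fun h => r3_ne_zero (m := m) hq (-1) (Prod.ext rfl h)) (r2_ne_r3 hq).symm
  by_cases b1 : b = 1
  · subst b1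
    rw [if_neg b0, if_pos rfl, th1 hq, Equiv.swap_apply_right]
  rw [if_neg b0, if_neg b1]
  by_cases be : Even b.val
  · rw [th_even b0 b1 be, if_pos be, Equiv.swap_apply_right]
  · rw [th_odd b0 b1 be, if_neg be]; rfl

theorem cast_inj {v w : ℕ} (hv : v < q) (hw : w < q) (h : (v : ZMod q) = (w : ZMod q)) :
    v = w := by
  have := (ZMod.natCast_eq_natCast_iff' v w q).1 h
  rwa [Nat.mod_eq_of_lt hv, Nat.mod_eq_of_lt hw] at this

/-- Rows are permutations of the symbols. -/
theorem row_inj [NeZero q] (hq : 5 ≤ q) (hqo : Odd q) (r : ZMod m × ZMod q) :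
    Function.Injective (fun b : ZMod q => (theta m q b r).2 + b) := by
  have hex : ∀ b : ZMod q, ∃ v : ℕ, v < q ∧ b = (v : ZMod q) ∧ b.val = v := fun b =>
    ⟨b.val, ZMod.val_lt b, (ZMod.natCast_zmod_val b).symm, rfl⟩
  have hz : ∀ v : ℕ, v < q → ((v : ZMod q) = 0 ↔ v = 0) := fun v hv =>
    ⟨fun h => cast_inj hv (by omega) (by simpa using h), fun h => by simp [h]⟩
  have ho : ∀ v : ℕ, v < q → ((v : ZMod q) = 1 ↔ v = 1) := fun v hv =>
    ⟨fun h => cast_inj hv (by omega) (by simpa using h), fun h => by simp [h]⟩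
  by_cases h1 : r = r1 m q
  · subst h1
    have key : ∀ v : ℕ, v < q → (theta m q (v : ZMod q) (r1 m q)).2 + (v : ZMod q)
        = ((if v = 0 then 1 else if v = 1 then 0 else v : ℕ) : ZMod q) := by
      intro v hv
      rw [theta_r1 hq]
      by_cases v0 : v = 0
      · subst v0; simp [r2]
      by_cases v1 : v = 1
      · subst v1; simp [one_ne hq, r3]
      · rw [if_neg (fun h => v0 ((hz v hv).1 h)), if_neg (fun h => v1 ((ho v hv).1 h)),
          if_neg v0, if_neg v1]
        simp [r1]
    intro b b' hbb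
    obtain ⟨v, hv, rfl, -⟩ := hex b
    obtain ⟨w, hw, rfl, -⟩ := hex b'
    simp only [key v hv, key w hw] at hbb
    have := cast_inj (q := q) (by split_ifs <;> omega) (by split_ifs <;> omega) hbb
    congr 1
    split_ifs at this <;> omega
  by_cases h2 : r = r2 m q
  · subst h2
    have key : ∀ v : ℕ, v < q → (theta m q (v : ZMod q) (r2 m q)).2 + (v : ZMod q)
        = ((if v = 0 then 0 else if v % 2 = 0 then v - 1 else v + 1 : ℕ) : ZMod q) := by
      intro v hv
      rw [theta_r2 hq]
      have hval : (v : ZMod q).val = v := ZMod.val_natCast_of_lt hv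
      rw [hval]
      by_cases v0 : v = 0
      · subst v0; simp
      by_cases v1 : v = 1
      · subst v1; simp [one_ne hq, r2]; norm_num
      rw [if_neg (fun h => v0 ((hz v hv).1 h)), if_neg (fun h => v1 ((ho v hv).1 h)),
          if_neg v0]
      by_cases ve : v % 2 = 0
      · rw [if_pos (Nat.even_iff.2 ve), if_pos ve, Nat.cast_sub (by omega)]
        simp only [r3, Nat.cast_one]; ring
      · rw [if_neg (fun h => ve (Nat.even_iff.1 h)), if_neg ve]
        simp only [r2, Nat.cast_add, Nat.cast_one]; ring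
    intro b b' hbb
    obtain ⟨v, hv, rfl, -⟩ := hex b
    obtain ⟨w, hw, rfl, -⟩ := hex b'
    simp only [key v hv, key w hw] at hbb
    obtain ⟨k, hk⟩ := hqo
    have := cast_inj (q := q) (by split_ifs <;> omega) (by split_ifs <;> omega) hbb
    congr 1
    split_ifs at this <;> omega
  by_cases h3 : r = r3 m q
  · subst h3
    have key : ∀ v : ℕ, v < q → (theta m q (v : ZMod q) (r3 m q)).2 + (v : ZMod q)
        = ((if v = 0 then q - 1 else if v = 1 then 1 else if v % 2 = 0 then
            (if v + 1 = q then 0 else v + 1) else v - 1 : ℕ) : ZMod q) := by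
      intro v hv
      rw [theta_r3 hq]
      have hval : (v : ZMod q).val = v := ZMod.val_natCast_of_lt hv
      rw [hval]
      by_cases v0 : v = 0
      · subst v0; simp [r3, Nat.cast_sub (show 1 ≤ q by omega)]
      by_cases v1 : v = 1
      · subst v1; simp [one_ne hq, r1]
      rw [if_neg (fun h => v0 ((hz v hv).1 h)), if_neg (fun h => v1 ((ho v hv).1 h)),
          if_neg v0, if_neg v1]
      by_cases ve : v % 2 = 0
      · rw [if_pos (Nat.even_iff.2 ve), if_pos ve]
        by_cases vq : v + 1 = q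
        · rw [if_pos vq]
          have : ((v + 1 : ℕ) : ZMod q) = 0 := by rw [vq]; simp
          simp only [r2]
          push_cast at this ⊢
          rw [add_comm]; exact this
        · rw [if_neg vq]
          simp only [r2, Nat.cast_add, Nat.cast_one]; ring
      · rw [if_neg (fun h => ve (Nat.even_iff.1 h)), if_neg ve, Nat.cast_sub (by omega)]
        simp only [r3, Nat.cast_one]; ring
    intro b b' hbb
    obtain ⟨v, hv, rfl, -⟩ := hex b
    obtain ⟨w, hw, rfl, -⟩ := hex b'
    simp only [key v hv, key w hw] at hbb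
    obtain ⟨k, hk⟩ := hqo
    have := cast_inj (q := q) (by split_ifs <;> omega) (by split_ifs <;> omega) hbb
    congr 1
    split_ifs at this <;> omega
  -- all other rows keep their class
  have hc : ∀ b : ZMod q, (theta m q b r).2 = r.2 := by
    intro b
    by_cases h0 : r.2 = 0
    · obtain ⟨x, c⟩ := r
      have h0' : c = 0 := h0
      subst h0'
      have hx : x ≠ -1 := fun h => h1 (by rw [h]; rfl)
      by_cases hb : b = 0
      · subst hb; rw [th0_zero hq hx]
      · rw [theta_zero hq hx hb]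
    · rw [theta_generic hq h0 h2 h3]
  intro b b' hbb
  simp only [hc] at hbb
  exact add_left_cancel hbb

/-- The displacement sum along a transversal, split into its four contributions. -/
theorem disp_split [NeZero m] [NeZero q] (hq : 5 ≤ q) (hm : Odd m) (hqo : Odd q)
    (σ : ZMod m × ZMod q → ZMod m × ZMod q) (hσ : Function.Injective σ)
    (hL : Function.Injective (fun r => theta m q (σ r).2 r + σ r)) :
    (theta m q (σ (r1 m q)).2 (r1 m q) - r1 m q) + (theta m q (σ (r2 m q)).2 (r2 m q) - r2 m q)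
      + (theta m q (σ (r3 m q)).2 (r3 m q) - r3 m q)
      + (univ.filter (fun r : ZMod m × ZMod q => r.2 = 0 ∧ r ≠ r1 m q ∧ (σ r).2 = 0)).card
        • ((1, 0) : ZMod m × ZMod q) = 0 := by
  have h := sum_disp hm hqo (theta m q) σ hσ hL
  have hpt : ∀ r : ZMod m × ZMod q, theta m q (σ r).2 r - r =
      (if r = r1 m q then theta m q (σ (r1 m q)).2 (r1 m q) - r1 m q else 0)
      + (if r = r2 m q then theta m q (σ (r2 m q)).2 (r2 m q) - r2 m q else 0)
      + (if r = r3 m q then theta m q (σ (r3 m q)).2 (r3 m q) - r3 m q else 0)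
      + (if r.2 = 0 ∧ r ≠ r1 m q ∧ (σ r).2 = 0 then ((1, 0) : ZMod m × ZMod q) else 0) := by
    intro r
    by_cases h1 : r = r1 m q
    · subst h1
      simp [r1_ne_r2 hq, r1_ne_r3 hq]
    by_cases h2 : r = r2 m q
    · subst h2
      have : ¬ (r2 m q).2 = 0 := one_ne hq
      simp [(r1_ne_r2 hq).symm, r2_ne_r3 hq, this]
    by_cases h3 : r = r3 m q
    · subst h3
      have : ¬ (r3 m q).2 = 0 := fun h => one_ne hq (neg_eq_zero.1 h)
      simp [(r1_ne_r3 hq).symm, (r2_ne_r3 hq).symm, this]
    rw [if_neg h1, if_neg h2, if_neg h3, add_zero, add_zero, zero_add]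
    by_cases h0 : r.2 = 0
    · obtain ⟨x, c⟩ := r
      have h0' : c = 0 := h0
      subst h0'
      have hx : x ≠ -1 := fun h => h1 (by rw [h]; rfl)
      by_cases hb : (σ (x, 0)).2 = 0
      · rw [if_pos ⟨rfl, h1, hb⟩, hb, th0_zero hq hx]
        ext <;> simp
      · rw [if_neg (fun h => hb h.2.2), theta_zero hq hx hb, sub_self]
    · rw [if_neg (fun h => h0 h.1), theta_generic hq h0 h2 h3, sub_self]
  rw [Finset.sum_congr rfl (fun r _ => hpt r)] at h
  rw [Finset.sum_add_distrib, Finset.sum_add_distrib, Finset.sum_add_distrib,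
    Finset.sum_ite_eq' univ (r1 m q), Finset.sum_ite_eq' univ (r2 m q),
    Finset.sum_ite_eq' univ (r3 m q), if_pos (mem_univ _), if_pos (mem_univ _),
    if_pos (mem_univ _), ← Finset.sum_filter, Finset.sum_const] at h
  exact h

/-- The rows `(x, 0)` with `x ≠ -1` use no column of class `0` in any transversal. -/
theorem no_R [NeZero m] [NeZero q] (hq : 5 ≤ q) (hm : Odd m) (hqo : Odd q)
    (σ : ZMod m × ZMod q → ZMod m × ZMod q) (hσ : Function.Injective σ)
    (hL : Function.Injective (fun r => theta m q (σ r).2 r + σ r))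
    (x : ZMod m) (hx : x ≠ -1) : (σ (x, 0)).2 ≠ 0 := by
  classical
  have h := disp_split hq hm hqo σ hσ hL
  set R := univ.filter (fun r : ZMod m × ZMod q => r.2 = 0 ∧ r ≠ r1 m q ∧ (σ r).2 = 0) with hR
  set b1 := (σ (r1 m q)).2 with hb1
  set b2 := (σ (r2 m q)).2 with hb2
  set b3 := (σ (r3 m q)).2 with hb3
  -- the card of `R` is less than `m`
  have hRsub : R ⊆ (univ.filter (fun r : ZMod m × ZMod q => r.2 = 0)).erase (r1 m q) := by
    intro r hr
    rw [hR, mem_filter] at hr
    rw [mem_erase, mem_filter]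
    exact ⟨hr.2.2.1, mem_univ _, hr.2.1⟩
  have hmem : r1 m q ∈ univ.filter (fun r : ZMod m × ZMod q => r.2 = 0) := by
    rw [mem_filter]; exact ⟨mem_univ _, rfl⟩
  have hRcard : R.card ≤ m - 1 := by
    have := Finset.card_le_card hRsub
    rwa [Finset.card_erase_of_mem hmem, card_snd_zero] at this
  have hmpos : 0 < m := Nat.pos_of_ne_zero (NeZero.ne m)
  -- it suffices to show that `R` is empty
  suffices hR0 : (R.card : ZMod m) = 0 by
    intro hx0
    have hin : (x, (0 : ZMod q)) ∈ R := by
      rw [hR, mem_filter]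
      exact ⟨mem_univ _, rfl, fun h => hx (congrArg Prod.fst h), hx0⟩
    have hpos : 0 < R.card := Finset.card_pos.2 ⟨_, hin⟩
    rw [ZMod.natCast_eq_zero_iff] at hR0
    exact absurd (Nat.le_of_dvd hpos hR0) (by omega)
  -- the full case
  have hfull : (R.card : ZMod m) + 1 = 0 →
      R = (univ.filter (fun r : ZMod m × ZMod q => r.2 = 0)).erase (r1 m q) := by
    intro h1
    apply Finset.eq_of_subset_of_card_le hRsub
    rw [Finset.card_erase_of_mem hmem, card_snd_zero]
    have h2 : ((R.card + 1 : ℕ) : ZMod m) = 0 := by push_cast; exact h1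
    rw [ZMod.natCast_eq_zero_iff] at h2
    have := Nat.le_of_dvd (by omega) h2
    omega
  have hr2 : r2 m q ∉ univ.filter (fun r : ZMod m × ZMod q => r.2 = 0) := by
    rw [mem_filter]
    rintro ⟨-, h⟩
    exact one_ne hq h
  -- too many rows using columns of class `0`
  have colContra : (R.card : ZMod m) + 1 = 0 → b1 = 0 → b2 = 0 → False := by
    intro h1 hc1 hc2
    have hRe := hfull h1
    have hmaps : ∀ r ∈ insert (r2 m q) (univ.filter (fun r : ZMod m × ZMod q => r.2 = 0)),
        σ r ∈ univ.filter (fun r : ZMod m × ZMod q => r.2 = 0) := by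
      intro r hr
      rw [mem_filter]
      refine ⟨mem_univ _, ?_⟩
      rcases Finset.mem_insert.1 hr with rfl | hr
      · exact hc2
      · by_cases hr1 : r = r1 m q
        · rw [hr1]; exact hc1
        · have : r ∈ R := by rw [hRe, mem_erase]; exact ⟨hr1, hr⟩
          rw [hR, mem_filter] at this
          exact this.2.2.2
    have := Finset.card_le_card_of_injOn σ hmaps hσ.injOn
    rw [Finset.card_insert_of_notMem hr2, card_snd_zero] at this
    omega
  -- too many rows using symbols of class `0`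
  have symContra : (R.card : ZMod m) + 1 = 0 → b1 = 1 → b2 = 0 → False := by
    intro h1 hc1 hc2
    have hRe := hfull h1
    have hmaps : ∀ r ∈ insert (r2 m q) (univ.filter (fun r : ZMod m × ZMod q => r.2 = 0)),
        (fun r => theta m q (σ r).2 r + σ r) r ∈
          univ.filter (fun r : ZMod m × ZMod q => r.2 = 0) := by
      intro r hr
      rw [mem_filter]
      refine ⟨mem_univ _, ?_⟩
      rcases Finset.mem_insert.1 hr with rfl | hr
      · show (theta m q b2 (r2 m q)).2 + b2 = 0
        rw [hc2, th0_r2 hq]; simp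
      · by_cases hr1 : r = r1 m q
        · rw [hr1]
          show (theta m q b1 (r1 m q)).2 + b1 = 0
          rw [hc1, theta_r1 hq, if_neg (one_ne hq), if_pos rfl]
          simp [r3]
        · have hmemR : r ∈ R := by rw [hRe, mem_erase]; exact ⟨hr1, hr⟩
          rw [hR, mem_filter] at hmemR
          obtain ⟨y, c⟩ := r
          have h0' : c = 0 := hmemR.2.1
          subst h0'
          have hy : y ≠ -1 := fun h => hr1 (by rw [h]; rfl)
          show (theta m q (σ (y, 0)).2 (y, 0)).2 + (σ (y, 0)).2 = 0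
          rw [hmemR.2.2.2, th0_zero hq hy]
          simp
    have := Finset.card_le_card_of_injOn _ hmaps hL.injOn
    rw [Finset.card_insert_of_notMem hr2, card_snd_zero] at this
    omega
  -- case analysis
  have n1 := one_ne hq
  have n2 := two_ne hq
  have n3 := three_ne hq
  have P1 : (b1 = 0 ∧ theta m q b1 (r1 m q) - r1 m q = (1, 1)) ∨
      (b1 = 1 ∧ theta m q b1 (r1 m q) - r1 m q = (0, -1)) ∨
      theta m q b1 (r1 m q) - r1 m q = (0, 0) := by
    rw [theta_r1 hq]
    by_cases c0 : b1 = 0
    · left; refine ⟨c0, ?_⟩; rw [if_pos c0]; simp [r1, r2]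
    by_cases c1 : b1 = 1
    · right; left; refine ⟨c1, ?_⟩; rw [if_neg c0, if_pos c1]; simp [r1, r3]
    · right; right; rw [if_neg c0, if_neg c1, sub_self]; rfl
  have P2 : (b2 = 0 ∧ theta m q b2 (r2 m q) - r2 m q = (0, -1)) ∨
      theta m q b2 (r2 m q) - r2 m q = (0, 0) ∨
      theta m q b2 (r2 m q) - r2 m q = (-1, -2) := by
    rw [theta_r2 hq]
    by_cases c0 : b2 = 0
    · left; refine ⟨c0, ?_⟩; rw [if_pos c0]; simp [r2]
    by_cases c1 : b2 = 1
    · right; left; rw [if_neg c0, if_pos c1, sub_self]; rfl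
    by_cases ce : Even b2.val
    · right; right; rw [if_neg c0, if_neg c1, if_pos ce]
      refine Prod.ext ?_ ?_
      · simp [r2, r3]
      · simp only [r2, r3, Prod.snd_sub]; norm_num
    · right; left; rw [if_neg c0, if_neg c1, if_neg ce, sub_self]; rfl
  have P3 : theta m q b3 (r3 m q) - r3 m q = (0, 0) ∨
      theta m q b3 (r3 m q) - r3 m q = (0, 1) ∨
      theta m q b3 (r3 m q) - r3 m q = (1, 2) := by
    rw [theta_r3 hq]
    by_cases c0 : b3 = 0
    · left; rw [if_pos c0, sub_self]; rfl
    by_cases c1 : b3 = 1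
    · right; left; rw [if_neg c0, if_pos c1]; simp [r1, r3]
    by_cases ce : Even b3.val
    · right; right; rw [if_neg c0, if_neg c1, if_pos ce]
      refine Prod.ext ?_ ?_
      · simp [r2, r3]
      · simp only [r2, r3, Prod.snd_sub]; norm_num
    · left; rw [if_neg c0, if_neg c1, if_neg ce, sub_self]; rfl
  have hsm : R.card • ((1, 0) : ZMod m × ZMod q) = ((R.card : ZMod m), 0) := by
    ext <;> simp
  rw [hsm] at h
  rcases P1 with ⟨c1, e1⟩ | ⟨c1, e1⟩ | e1 <;> rcases P2 with ⟨c2, e2⟩ | e2 | e2 <;>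
    rcases P3 with e3 | e3 | e3 <;> rw [e1, e2, e3] at h <;>
    have hA := congrArg Prod.fst h <;> have hB := congrArg Prod.snd h <;>
    simp only [Prod.fst_add, Prod.snd_add, Prod.fst_zero, Prod.snd_zero, add_zero] at hA hB <;>
    first
      | exact absurd (by linear_combination hB) n1
      | exact absurd (by linear_combination -hB) n1
      | exact absurd (by linear_combination hB) n2
      | exact absurd (by linear_combination -hB) n2
      | exact absurd (by linear_combination hB) n3
      | exact absurd (by linear_combination -hB) n3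
      | linear_combination hA
      | exact (colContra (by linear_combination hA) c1 c2).elim
      | exact (symContra (by linear_combination hA) c1 c2).elim

end vals

end Gen

end Pool.Agent.TransFree
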