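import Pool.Agent.TransFree.Transport

set_option autoImplicit false

namespace Pool.Agent.TransFree

open Finset

namespace Thr

/-- The three special rows. -/
def r1 (m : ℕ) : ZMod m × ZMod 3 := (-2, 0)
/-- The three special rows. -/
def r2 (m : ℕ) : ZMod m × ZMod 3 := (-1, 1)
/-- The three special rows. -/
def r3 (m : ℕ) : ZMod m × ZMod 3 := (-1, -1)

/-- The row permutations. -/
def theta (m : ℕ) (b : ZMod 3) : Equiv.Perm (ZMod m × ZMod 3) :=
  if b = 0 then ((Gen.shift m 3).trans (Equiv.swap (0, 0) (r2 m))).trans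
    (Equiv.swap (-1, 0) (r2 m))
  else if b = 1 then Equiv.swap (r1 m) (r3 m)
  else Equiv.swap (r2 m) (r3 m)

section vals

variable {m : ℕ}

theorem one_ne (hm : 3 ≤ m) : (1 : ZMod m) ≠ 0 := by
  have := Gen.natCast_ne_zero (q := m) 1 (by norm_num) (by omega)
  simpa using this

theorem two_ne (hm : 3 ≤ m) : (2 : ZMod m) ≠ 0 := by
  have := Gen.natCast_ne_zero (q := m) 2 (by norm_num) (by omega)
  simpa using this

theorem r2_snd_ne : (r2 m).2 ≠ 0 := show (1 : ZMod 3) ≠ 0 by decide

theorem r3_snd_ne : (r3 m).2 ≠ 0 := show (-1 : ZMod 3) ≠ 0 by decide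

theorem r1_ne_r2 : r1 m ≠ r2 m := fun h => r2_snd_ne (congrArg Prod.snd h).symm

theorem r1_ne_r3 : r1 m ≠ r3 m := fun h => r3_snd_ne (congrArg Prod.snd h).symm

theorem r2_ne_r3 : r2 m ≠ r3 m := fun h =>
  absurd (show (1 : ZMod 3) = -1 from congrArg Prod.snd h) (by decide)

theorem r2_ne_zero (x : ZMod m) : r2 m ≠ (x, 0) := fun h =>
  r2_snd_ne (congrArg Prod.snd h)

theorem r3_ne_zero (x : ZMod m) : r3 m ≠ (x, 0) := fun h =>
  r3_snd_ne (congrArg Prod.snd h)

theorem neg_one_ne_neg_two (hm : 3 ≤ m) : (-1 : ZMod m) ≠ -2 := by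
  intro h
  apply one_ne hm
  linear_combination h

theorem th0_r1 (hm : 3 ≤ m) : theta m 0 (r1 m) = r2 m := by
  have h1 : Gen.shift m 3 (r1 m) = (-1, 0) := by
    rw [r1, Gen.shift_zero]; congr 1; ring
  have h2 : ((-1, 0) : ZMod m × ZMod 3) ≠ (0, 0) := fun h =>
    one_ne hm (neg_eq_zero.1 (congrArg Prod.fst h))
  simp only [theta, if_true, Equiv.trans_apply, h1]
  rw [Equiv.swap_apply_of_ne_of_ne h2 (r2_ne_zero _).symm, Equiv.swap_apply_left]

theorem th0_neg_one : theta m 0 (-1, 0) = (-1, 0) := by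
  have h1 : Gen.shift m 3 (-1, 0) = (0, 0) := by
    rw [Gen.shift_zero]; congr 1; ring
  simp only [theta, if_true, Equiv.trans_apply, h1]
  rw [Equiv.swap_apply_left, Equiv.swap_apply_right]

theorem th0_r2 (hm : 3 ≤ m) : theta m 0 (r2 m) = (0, 0) := by
  have h1 : Gen.shift m 3 (r2 m) = r2 m := Gen.shift_ne r2_snd_ne
  have h2 : ((0, 0) : ZMod m × ZMod 3) ≠ (-1, 0) := fun h =>
    one_ne hm (neg_eq_zero.1 (congrArg Prod.fst h).symm)
  simp only [theta, if_true, Equiv.trans_apply, h1]
  rw [Equiv.swap_apply_right, Equiv.swap_apply_of_ne_of_ne h2 (r2_ne_zero _).symm]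

theorem th0_of_ne {r : ZMod m × ZMod 3} (h0 : r.2 ≠ 0) (h2 : r ≠ r2 m) :
    theta m 0 r = r := by
  simp only [theta, if_true, Equiv.trans_apply, Gen.shift_ne h0]
  rw [Equiv.swap_apply_of_ne_of_ne _ h2, Equiv.swap_apply_of_ne_of_ne _ h2]
  · intro h; exact h0 (congrArg Prod.snd h)
  · intro h; exact h0 (congrArg Prod.snd h)

theorem th0_zero {x : ZMod m} (hx1 : x ≠ -1) (hx2 : x ≠ -2) :
    theta m 0 (x, 0) = (x + 1, 0) := by
  simp only [theta, if_true, Equiv.trans_apply, Gen.shift_zero]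
  rw [Equiv.swap_apply_of_ne_of_ne _ (r2_ne_zero _).symm,
    Equiv.swap_apply_of_ne_of_ne _ (r2_ne_zero _).symm]
  · intro h
    apply hx2
    have := congrArg Prod.fst h
    simp only at this
    linear_combination this
  · intro h
    exact hx1 (eq_neg_of_add_eq_zero_left (congrArg Prod.fst h))

theorem th1 : theta m 1 = Equiv.swap (r1 m) (r3 m) := by
  rw [theta, if_neg (by decide), if_pos rfl]

theorem th2 : theta m 2 = Equiv.swap (r2 m) (r3 m) := by
  rw [theta, if_neg (by decide), if_neg (by decide)]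

theorem zmod3 (b : ZMod 3) : b = 0 ∨ b = 1 ∨ b = 2 := by
  revert b; decide

/-- Rows outside class `0` and different from the special rows are never moved. -/
theorem theta_generic {r : ZMod m × ZMod 3} (h0 : r.2 ≠ 0) (h2 : r ≠ r2 m)
    (h3 : r ≠ r3 m) (b : ZMod 3) : theta m b r = r := by
  have h1 : r ≠ r1 m := fun h => h0 (congrArg Prod.snd h)
  rcases zmod3 b with rfl | rfl | rfl
  · exact th0_of_ne h0 h2
  · rw [th1, Equiv.swap_apply_of_ne_of_ne h1 h3]
  · rw [th2, Equiv.swap_apply_of_ne_of_ne h2 h3]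

/-- Rows of class `0` other than `r1` only move in the columns of class `0`. -/
theorem theta_zero {x : ZMod m} (hx : x ≠ -2) {b : ZMod 3} (hb : b ≠ 0) :
    theta m b (x, 0) = (x, 0) := by
  have h1 : ((x, 0) : ZMod m × ZMod 3) ≠ r1 m := fun h => hx (congrArg Prod.fst h)
  rcases zmod3 b with rfl | rfl | rfl
  · exact absurd rfl hb
  · rw [th1, Equiv.swap_apply_of_ne_of_ne h1 (r3_ne_zero _).symm]
  · rw [th2, Equiv.swap_apply_of_ne_of_ne (r2_ne_zero _).symm (r3_ne_zero _).symm]

theorem th0_r3 : theta m 0 (r3 m) = r3 m :=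
  th0_of_ne r3_snd_ne r2_ne_r3.symm

theorem th1_r1 : theta m 1 (r1 m) = r3 m := by rw [th1, Equiv.swap_apply_left]

theorem th1_r2 : theta m 1 (r2 m) = r2 m := by
  rw [th1, Equiv.swap_apply_of_ne_of_ne r1_ne_r2.symm r2_ne_r3]

theorem th1_r3 : theta m 1 (r3 m) = r1 m := by rw [th1, Equiv.swap_apply_right]

theorem th2_r1 : theta m 2 (r1 m) = r1 m := by
  rw [th2, Equiv.swap_apply_of_ne_of_ne r1_ne_r2 r1_ne_r3]

theorem th2_r2 : theta m 2 (r2 m) = r3 m := by rw [th2, Equiv.swap_apply_left]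

theorem th2_r3 : theta m 2 (r3 m) = r2 m := by rw [th2, Equiv.swap_apply_right]

/-- Rows are permutations of the symbols. -/
theorem row_inj (hm : 3 ≤ m) (r : ZMod m × ZMod 3) :
    Function.Injective (fun b : ZMod 3 => (theta m b r).2 + b) := by
  have inj3 : ∀ f : ZMod 3 → ZMod 3, f 0 ≠ f 1 → f 0 ≠ f 2 → f 1 ≠ f 2 →
      Function.Injective f := by
    intro f h01 h02 h12 a b hab
    rcases zmod3 a with rfl | rfl | rfl <;> rcases zmod3 b with rfl | rfl | rfl <;>
      first
        | rfl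
        | exact absurd hab h01
        | exact absurd hab.symm h01
        | exact absurd hab h02
        | exact absurd hab.symm h02
        | exact absurd hab h12
        | exact absurd hab.symm h12
  by_cases h1 : r = r1 m
  · subst h1
    apply inj3 <;> simp only [th0_r1 hm, th1_r1, th2_r1] <;>
      simp only [r1, r2, r3] <;> decide
  by_cases h2 : r = r2 m
  · subst h2
    apply inj3 <;> simp only [th0_r2 hm, th1_r2, th2_r2] <;>
      simp only [r1, r2, r3] <;> decide
  by_cases h3 : r = r3 m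
  · subst h3
    apply inj3 <;> simp only [th0_r3, th1_r3, th2_r3] <;>
      simp only [r1, r2, r3] <;> decide
  have hc : ∀ b : ZMod 3, (theta m b r).2 = r.2 := by
    intro b
    by_cases h0 : r.2 = 0
    · obtain ⟨x, c⟩ := r
      have h0' : c = 0 := h0
      subst h0'
      have hx : x ≠ -2 := fun h => h1 (by rw [h]; rfl)
      by_cases hb : b = 0
      · subst hb
        by_cases hx1 : x = -1
        · subst hx1; rw [th0_neg_one]
        · rw [th0_zero hx1 hx]
      · rw [theta_zero hx hb]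
    · rw [theta_generic h0 h2 h3]
  intro b b' hbb
  simp only [hc] at hbb
  exact add_left_cancel hbb

/-- The displacement sum along a transversal, split into its four contributions. -/
theorem disp_split [NeZero m] (hmo : Odd m)
    (σ : ZMod m × ZMod 3 → ZMod m × ZMod 3) (hσ : Function.Injective σ)
    (hL : Function.Injective (fun r => theta m (σ r).2 r + σ r)) :
    (theta m (σ (r1 m)).2 (r1 m) - r1 m) + (theta m (σ (r2 m)).2 (r2 m) - r2 m)
      + (theta m (σ (r3 m)).2 (r3 m) - r3 m)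
      + (univ.filter (fun r : ZMod m × ZMod 3 => r.2 = 0 ∧ r ≠ r1 m ∧ r ≠ (-1, 0) ∧
          (σ r).2 = 0)).card
        • ((1, 0) : ZMod m × ZMod 3) = 0 := by
  have h := sum_disp hmo (by decide) (theta m) σ hσ hL
  have hpt : ∀ r : ZMod m × ZMod 3, theta m (σ r).2 r - r =
      (if r = r1 m then theta m (σ (r1 m)).2 (r1 m) - r1 m else 0)
      + (if r = r2 m then theta m (σ (r2 m)).2 (r2 m) - r2 m else 0)
      + (if r = r3 m then theta m (σ (r3 m)).2 (r3 m) - r3 m else 0)
      + (if r.2 = 0 ∧ r ≠ r1 m ∧ r ≠ (-1, 0) ∧ (σ r).2 = 0 then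
          ((1, 0) : ZMod m × ZMod 3) else 0) := by
    intro r
    by_cases h1 : r = r1 m
    · subst h1
      simp [r1_ne_r2, r1_ne_r3]
    by_cases h2 : r = r2 m
    · subst h2
      have : ¬ (r2 m).2 = 0 := r2_snd_ne
      simp [r1_ne_r2.symm, r2_ne_r3, this]
    by_cases h3 : r = r3 m
    · subst h3
      have : ¬ (r3 m).2 = 0 := r3_snd_ne
      simp [r1_ne_r3.symm, r2_ne_r3.symm, this]
    rw [if_neg h1, if_neg h2, if_neg h3, add_zero, add_zero, zero_add]
    by_cases h0 : r.2 = 0
    · obtain ⟨x, c⟩ := r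
      have h0' : c = 0 := h0
      subst h0'
      have hx : x ≠ -2 := fun h => h1 (by rw [h]; rfl)
      by_cases hb : (σ (x, 0)).2 = 0
      · by_cases hx1 : x = -1
        · subst hx1
          rw [if_neg (fun h => h.2.2.1 rfl), hb, th0_neg_one, sub_self]
        · rw [if_pos ⟨rfl, h1, fun h => hx1 (congrArg Prod.fst h), hb⟩, hb, th0_zero hx1 hx]
          ext <;> simp
      · rw [if_neg (fun h => hb h.2.2.2), theta_zero hx hb, sub_self]
    · rw [if_neg (fun h => h0 h.1), theta_generic h0 h2 h3, sub_self]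
  rw [Finset.sum_congr rfl (fun r _ => hpt r)] at h
  rw [Finset.sum_add_distrib, Finset.sum_add_distrib, Finset.sum_add_distrib,
    Finset.sum_ite_eq' univ (r1 m), Finset.sum_ite_eq' univ (r2 m),
    Finset.sum_ite_eq' univ (r3 m), if_pos (mem_univ _), if_pos (mem_univ _),
    if_pos (mem_univ _), ← Finset.sum_filter, Finset.sum_const] at h
  exact h

/-- The rows `(x, 0)` with `x ≠ -1, -2` use no column of class `0` in any transversal. -/
theorem no_R [NeZero m] (hm : 3 ≤ m) (hmo : Odd m)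
    (σ : ZMod m × ZMod 3 → ZMod m × ZMod 3) (hσ : Function.Injective σ)
    (hL : Function.Injective (fun r => theta m (σ r).2 r + σ r))
    (x : ZMod m) (hx : x ≠ -1) (hx2 : x ≠ -2) : (σ (x, 0)).2 ≠ 0 := by
  classical
  have h := disp_split hmo σ hσ hL
  set R := univ.filter (fun r : ZMod m × ZMod 3 => r.2 = 0 ∧ r ≠ r1 m ∧ r ≠ (-1, 0) ∧
    (σ r).2 = 0) with hR
  set b1 := (σ (r1 m)).2 with hb1
  set b2 := (σ (r2 m)).2 with hb2
  set b3 := (σ (r3 m)).2 with hb3
  set C := univ.filter (fun r : ZMod m × ZMod 3 => r.2 = 0) with hC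
  have hCcard : C.card = m := card_snd_zero
  have hRsub : R ⊆ (C.erase (r1 m)).erase (-1, 0) := by
    intro r hr
    rw [hR, mem_filter] at hr
    rw [mem_erase, mem_erase, hC, mem_filter]
    exact ⟨hr.2.2.2.1, hr.2.2.1, mem_univ _, hr.2.1⟩
  have hmem : r1 m ∈ C := by
    rw [hC, mem_filter]; exact ⟨mem_univ _, rfl⟩
  have hmem2 : ((-1, 0) : ZMod m × ZMod 3) ∈ C.erase (r1 m) := by
    rw [mem_erase, hC, mem_filter]
    exact ⟨fun h => neg_one_ne_neg_two hm (congrArg Prod.fst h), mem_univ _, rfl⟩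
  have hEcard : ((C.erase (r1 m)).erase (-1, 0)).card = m - 2 := by
    rw [Finset.card_erase_of_mem hmem2, Finset.card_erase_of_mem hmem, hCcard]
    omega
  have hRcard : R.card ≤ m - 2 := by
    rw [← hEcard]; exact Finset.card_le_card hRsub
  suffices hR0 : (R.card : ZMod m) = 0 by
    intro hx0
    have hin : (x, (0 : ZMod 3)) ∈ R := by
      rw [hR, mem_filter]
      exact ⟨mem_univ _, rfl, fun h => hx2 (congrArg Prod.fst h),
        fun h => hx (congrArg Prod.fst h), hx0⟩
    have hpos : 0 < R.card := Finset.card_pos.2 ⟨_, hin⟩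
    rw [ZMod.natCast_eq_zero_iff] at hR0
    exact absurd (Nat.le_of_dvd hpos hR0) (by omega)
  have hneg1 : (R.card : ZMod m) + 1 ≠ 0 := by
    intro h1
    have h2 : ((R.card + 1 : ℕ) : ZMod m) = 0 := by push_cast; exact h1
    rw [ZMod.natCast_eq_zero_iff] at h2
    have := Nat.le_of_dvd (by omega) h2
    omega
  have hfull : (R.card : ZMod m) + 2 = 0 → R = (C.erase (r1 m)).erase (-1, 0) := by
    intro h1
    apply Finset.eq_of_subset_of_card_le hRsub
    rw [hEcard]
    have h2 : ((R.card + 2 : ℕ) : ZMod m) = 0 := by push_cast; exact h1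
    rw [ZMod.natCast_eq_zero_iff] at h2
    have := Nat.le_of_dvd (by omega) h2
    omega
  have hr2C : r2 m ∉ C.erase (-1, 0) := by
    rw [mem_erase, hC, mem_filter]
    rintro ⟨-, -, h⟩
    exact r2_snd_ne h
  have hr3C : r3 m ∉ insert (r2 m) (C.erase (-1, 0)) := by
    rw [mem_insert, mem_erase, hC, mem_filter]
    rintro (h | ⟨-, -, h⟩)
    · exact r2_ne_r3 h.symm
    · exact r3_snd_ne h
  have hmem3 : ((-1, 0) : ZMod m × ZMod 3) ∈ C := (Finset.mem_erase.1 hmem2).2
  have hWcard : (insert (r3 m) (insert (r2 m) (C.erase (-1, 0)))).card = m + 1 := by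
    rw [Finset.card_insert_of_notMem hr3C, Finset.card_insert_of_notMem hr2C,
      Finset.card_erase_of_mem hmem3, hCcard]
    omega
  have colContra : (R.card : ZMod m) + 2 = 0 → b1 = 0 → b2 = 0 → b3 = 0 → False := by
    intro h1 hc1 hc2 hc3
    have hRe := hfull h1
    have hmaps : ∀ r ∈ insert (r3 m) (insert (r2 m) (C.erase (-1, 0))), σ r ∈ C := by
      intro r hr
      rw [hC, mem_filter]
      refine ⟨mem_univ _, ?_⟩
      rcases Finset.mem_insert.1 hr with rfl | hr
      · exact hc3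
      rcases Finset.mem_insert.1 hr with rfl | hr
      · exact hc2
      · by_cases hr1 : r = r1 m
        · rw [hr1]; exact hc1
        · have : r ∈ R := by
            rw [hRe, mem_erase, mem_erase]
            exact ⟨(Finset.mem_erase.1 hr).1, hr1, (Finset.mem_erase.1 hr).2⟩
          rw [hR, mem_filter] at this
          exact this.2.2.2.2
    have := Finset.card_le_card_of_injOn σ hmaps hσ.injOn
    rw [hWcard, hCcard] at this
    omega
  have symContra : (R.card : ZMod m) + 2 = 0 → b1 = 1 → b2 = 0 → b3 = 2 → False := by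
    intro h1 hc1 hc2 hc3
    have hRe := hfull h1
    have hmaps : ∀ r ∈ insert (r3 m) (insert (r2 m) (C.erase (-1, 0))),
        (fun r => theta m (σ r).2 r + σ r) r ∈ C := by
      intro r hr
      rw [hC, mem_filter]
      refine ⟨mem_univ _, ?_⟩
      rcases Finset.mem_insert.1 hr with rfl | hr
      · show (theta m b3 (r3 m)).2 + b3 = 0
        rw [hc3, th2_r3]; simp only [r2]; decide
      rcases Finset.mem_insert.1 hr with rfl | hr
      · show (theta m b2 (r2 m)).2 + b2 = 0
        rw [hc2, th0_r2 hm]; simp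
      · by_cases hr1 : r = r1 m
        · rw [hr1]
          show (theta m b1 (r1 m)).2 + b1 = 0
          rw [hc1, th1_r1]; simp only [r3]; decide
        · have hmemR : r ∈ R := by
            rw [hRe, mem_erase, mem_erase]
            exact ⟨(Finset.mem_erase.1 hr).1, hr1, (Finset.mem_erase.1 hr).2⟩
          rw [hR, mem_filter] at hmemR
          obtain ⟨y, c⟩ := r
          have h0' : c = 0 := hmemR.2.1
          subst h0'
          have hy : y ≠ -2 := fun h => hr1 (by rw [h]; rfl)
          have hy1 : y ≠ -1 := fun h => hmemR.2.2.2.1 (by rw [h])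
          show (theta m (σ (y, 0)).2 (y, 0)).2 + (σ (y, 0)).2 = 0
          rw [hmemR.2.2.2.2, th0_zero hy1 hy]
          simp
    have := Finset.card_le_card_of_injOn _ hmaps hL.injOn
    rw [hWcard, hCcard] at this
    omega
  have P1 : (b1 = 0 ∧ theta m b1 (r1 m) - r1 m = (1, 1)) ∨
      (b1 = 1 ∧ theta m b1 (r1 m) - r1 m = (1, -1)) ∨
      (b1 = 2 ∧ theta m b1 (r1 m) - r1 m = (0, 0)) := by
    rcases zmod3 b1 with h | h | h
    · left; refine ⟨h, ?_⟩; rw [h, th0_r1 hm]
      refine Prod.ext ?_ ?_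
      · simp only [r1, r2, Prod.fst_sub]; ring
      · simp only [r1, r2, Prod.snd_sub]; decide
    · right; left; refine ⟨h, ?_⟩; rw [h, th1_r1]
      refine Prod.ext ?_ ?_
      · simp only [r1, r3, Prod.fst_sub]; ring
      · simp only [r1, r3, Prod.snd_sub]; decide
    · right; right; refine ⟨h, ?_⟩; rw [h, th2_r1, sub_self]; rfl
  have P2 : (b2 = 0 ∧ theta m b2 (r2 m) - r2 m = (1, -1)) ∨
      (b2 = 1 ∧ theta m b2 (r2 m) - r2 m = (0, 0)) ∨
      (b2 = 2 ∧ theta m b2 (r2 m) - r2 m = (0, 1)) := by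
    rcases zmod3 b2 with h | h | h
    · left; refine ⟨h, ?_⟩; rw [h, th0_r2 hm]
      refine Prod.ext ?_ ?_
      · simp only [r2, Prod.fst_sub]; ring
      · simp only [r2, Prod.snd_sub]; decide
    · right; left; refine ⟨h, ?_⟩; rw [h, th1_r2, sub_self]; rfl
    · right; right; refine ⟨h, ?_⟩; rw [h, th2_r2]
      refine Prod.ext ?_ ?_
      · simp only [r2, r3, Prod.fst_sub]; ring
      · simp only [r2, r3, Prod.snd_sub]; decide
  have P3 : (b3 = 0 ∧ theta m b3 (r3 m) - r3 m = (0, 0)) ∨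
      (b3 = 1 ∧ theta m b3 (r3 m) - r3 m = (-1, 1)) ∨
      (b3 = 2 ∧ theta m b3 (r3 m) - r3 m = (0, -1)) := by
    rcases zmod3 b3 with h | h | h
    · left; refine ⟨h, ?_⟩; rw [h, th0_r3, sub_self]; rfl
    · right; left; refine ⟨h, ?_⟩; rw [h, th1_r3]
      refine Prod.ext ?_ ?_
      · simp only [r1, r3, Prod.fst_sub]; ring
      · simp only [r1, r3, Prod.snd_sub]; decide
    · right; right; refine ⟨h, ?_⟩; rw [h, th2_r3]
      refine Prod.ext ?_ ?_
      · simp only [r2, r3, Prod.fst_sub]; ring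
      · simp only [r2, r3, Prod.snd_sub]; decide
  have hsm : R.card • ((1, 0) : ZMod m × ZMod 3) = ((R.card : ZMod m), 0) := by
    ext <;> simp
  rw [hsm] at h
  rcases P1 with ⟨c1, e1⟩ | ⟨c1, e1⟩ | ⟨c1, e1⟩ <;>
    rcases P2 with ⟨c2, e2⟩ | ⟨c2, e2⟩ | ⟨c2, e2⟩ <;>
    rcases P3 with ⟨c3, e3⟩ | ⟨c3, e3⟩ | ⟨c3, e3⟩ <;> rw [e1, e2, e3] at h <;>
    have hA := congrArg Prod.fst h <;> have hB := congrArg Prod.snd h <;>
    simp only [Prod.fst_add, Prod.snd_add, Prod.fst_zero, Prod.snd_zero, add_zero] at hA hB <;>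
    first
      | exact absurd hB (by decide)
      | linear_combination hA
      | exact absurd (by linear_combination hA) hneg1
      | exact (colContra (by linear_combination hA) c1 c2 c3).elim
      | exact (symContra (by linear_combination hA) c1 c2 c3).elim

end vals

end Thr

/-- For odd `m ≥ 3` there is a latin square of order `3 * m` with at least
`m * (m - 2)` transversal-free entries. -/
theorem three_bound (m : ℕ) (hm3 : 3 ≤ m) (hm : Odd m) :
    ∃ L : Fin (3 * m) → Fin (3 * m) → Fin (3 * m),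
      (∀ i, Function.Injective (L i)) ∧
      (∀ j, Function.Injective (fun i => L i j)) ∧
      m * (m - 2) ≤ ({p : Fin (3 * m) × Fin (3 * m) |
              ¬ ∃ σ : Equiv.Perm (Fin (3 * m)),
                  Function.Injective (fun i => L i (σ i)) ∧ σ p.1 = p.2}).ncard := by
  classical
  have : NeZero m := ⟨by omega⟩
  have hinj : Function.Injective (fun p : ZMod m × ZMod m =>
      (((p.1, 0), (p.2, 0)) : (ZMod m × ZMod 3) × (ZMod m × ZMod 3))) := by
    rintro ⟨a, b⟩ ⟨c, d⟩ h
    simp only [Prod.mk.injEq, and_true] at h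
    rw [h.1, h.2]
  have hcardS : m * (m - 2) = (((((univ : Finset (ZMod m)).erase (-1)).erase (-2)) ×ˢ
      (univ : Finset (ZMod m))).image (fun p : ZMod m × ZMod m =>
      (((p.1, 0), (p.2, 0)) : (ZMod m × ZMod 3) × (ZMod m × ZMod 3)))).card := by
    rw [Finset.card_image_of_injective _ hinj, Finset.card_product,
      Finset.card_erase_of_mem, Finset.card_erase_of_mem (mem_univ _), Finset.card_univ,
      ZMod.card, mul_comm]
    · congr 1
    · rw [mem_erase]
      exact ⟨(Thr.neg_one_ne_neg_two hm3).symm, mem_univ _⟩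
  rw [hcardS]
  apply transport (G := ZMod m × ZMod 3)
    (by rw [Fintype.card_prod, ZMod.card, ZMod.card, mul_comm])
    (fun r c => Thr.theta m c.2 r + c)
  · rintro r ⟨y, b⟩ ⟨y', b'⟩ h
    have h2 : (Thr.theta m b r).2 + b = (Thr.theta m b' r).2 + b' := congrArg Prod.snd h
    have hb : b = b' := Thr.row_inj hm3 r h2
    subst hb
    have h1 : (Thr.theta m b r).1 + y = (Thr.theta m b r).1 + y' := congrArg Prod.fst h
    rw [add_left_cancel h1]
  · intro c a b h
    exact (Thr.theta m c.2).injective (add_right_cancel h)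
  · intro p hp σ hσ hL hσp
    rw [Finset.mem_image] at hp
    obtain ⟨⟨x, y⟩, hxy, rfl⟩ := hp
    rw [Finset.mem_product] at hxy
    have hx2 : x ≠ -2 := (Finset.mem_erase.1 hxy.1).1
    have hx : x ≠ -1 := (Finset.mem_erase.1 (Finset.mem_erase.1 hxy.1).2).1
    exact Thr.no_R hm3 hm σ hσ hL x hx hx2 (by rw [show σ (x, 0) = (y, 0) from hσp])

end Pool.Agent.TransFree
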