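import Pool.Agent.TransFree.General

set_option autoImplicit false

namespace Pool.Agent.TransFree

open Finset

/-- Transport of a latin square on a finite type to `Fin n`. -/
theorem transport {G : Type} [Fintype G] {n : ℕ} (hn : Fintype.card G = n)
    (L : G → G → G) (hrow : ∀ r, Function.Injective (L r))
    (hcol : ∀ c, Function.Injective (fun r => L r c)) (S : Finset (G × G))
    (hS : ∀ p ∈ S, ∀ σ : G → G, Function.Injective σ →
      Function.Injective (fun r => L r (σ r)) → σ p.1 ≠ p.2) :
    ∃ L' : Fin n → Fin n → Fin n,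
      (∀ i : Fin n, Function.Injective (L' i)) ∧
      (∀ j : Fin n, Function.Injective (fun i : Fin n => L' i j)) ∧
      S.card ≤ ({p : Fin n × Fin n |
              ¬ ∃ σ : Equiv.Perm (Fin n),
                  Function.Injective (fun i : Fin n => L' i (σ i)) ∧ σ p.1 = p.2}).ncard := by
  classical
  let e : G ≃ Fin n := Fintype.equivFinOfCardEq hn
  refine ⟨fun i j => e (L (e.symm i) (e.symm j)), ?_, ?_, ?_⟩
  · intro i a b hab
    exact e.symm.injective (hrow _ (e.injective hab))
  · intro j a b hab
    exact e.symm.injective (hcol _ (e.injective hab))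
  · let f : G × G → Fin n × Fin n := fun p => (e p.1, e p.2)
    have hf : Function.Injective f := by
      rintro ⟨a, b⟩ ⟨c, d⟩ h
      have h1 : e a = e c := congrArg Prod.fst h
      have h2 : e b = e d := congrArg Prod.snd h
      rw [e.injective h1, e.injective h2]
    have hcard : S.card = ((S.image f : Finset (Fin n × Fin n)) : Set (Fin n × Fin n)).ncard := by
      rw [Set.ncard_coe_finset, Finset.card_image_of_injective _ hf]
    rw [hcard]
    apply Set.ncard_le_ncard _ (Set.toFinite _)
    intro p hp
    rw [Finset.mem_coe, Finset.mem_image] at hp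
    obtain ⟨⟨a, b⟩, hab, rfl⟩ := hp
    rw [Set.mem_ofPred_eq]
    rintro ⟨σ, hσ, hσp⟩
    have := hS (a, b) hab (fun r => e.symm (σ (e r)))
      (fun x y hxy => e.injective (σ.injective (e.symm.injective hxy))) ?_
    · apply this
      have h3 : σ (e a) = e b := hσp
      show e.symm (σ (e a)) = b
      rw [h3, e.symm_apply_apply]
    · intro x y hxy
      apply e.injective
      apply hσ
      show e (L (e.symm (e x)) (e.symm (σ (e x)))) = e (L (e.symm (e y)) (e.symm (σ (e y))))
      rw [e.symm_apply_apply, e.symm_apply_apply]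
      exact congrArg e hxy

/-- For odd `m` and odd `q ≥ 5` there is a latin square of order `q * m` with at least
`m * (m - 1)` transversal-free entries. -/
theorem general_bound (q m : ℕ) (hq : 5 ≤ q) (hqo : Odd q) (hm : Odd m) :
    ∃ L : Fin (q * m) → Fin (q * m) → Fin (q * m),
      (∀ i, Function.Injective (L i)) ∧
      (∀ j, Function.Injective (fun i => L i j)) ∧
      m * (m - 1) ≤ ({p : Fin (q * m) × Fin (q * m) |
              ¬ ∃ σ : Equiv.Perm (Fin (q * m)),
                  Function.Injective (fun i => L i (σ i)) ∧ σ p.1 = p.2}).ncard := by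
  classical
  have : NeZero m := ⟨by rintro rfl; simp at hm⟩
  have : NeZero q := ⟨by omega⟩
  have hinj : Function.Injective (fun p : ZMod m × ZMod m =>
      (((p.1, 0), (p.2, 0)) : (ZMod m × ZMod q) × (ZMod m × ZMod q))) := by
    rintro ⟨a, b⟩ ⟨c, d⟩ h
    simp only [Prod.mk.injEq, and_true] at h
    rw [h.1, h.2]
  have hcardS : m * (m - 1) = ((((univ : Finset (ZMod m)).erase (-1)) ×ˢ
      (univ : Finset (ZMod m))).image (fun p : ZMod m × ZMod m =>
      (((p.1, 0), (p.2, 0)) : (ZMod m × ZMod q) × (ZMod m × ZMod q)))).card := by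
    rw [Finset.card_image_of_injective _ hinj, Finset.card_product,
      Finset.card_erase_of_mem (mem_univ _), Finset.card_univ, ZMod.card, mul_comm]
  rw [hcardS]
  apply transport (G := ZMod m × ZMod q)
    (by rw [Fintype.card_prod, ZMod.card, ZMod.card, mul_comm])
    (fun r c => Gen.theta m q c.2 r + c)
  · rintro r ⟨y, b⟩ ⟨y', b'⟩ h
    have h2 : (Gen.theta m q b r).2 + b = (Gen.theta m q b' r).2 + b' := congrArg Prod.snd h
    have hb : b = b' := Gen.row_inj hq hqo r h2
    subst hb
    have h1 : (Gen.theta m q b r).1 + y = (Gen.theta m q b r).1 + y' := congrArg Prod.fst h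
    rw [add_left_cancel h1]
  · intro c a b h
    exact (Gen.theta m q c.2).injective (add_right_cancel h)
  · intro p hp σ hσ hL hσp
    rw [Finset.mem_image] at hp
    obtain ⟨⟨x, y⟩, hxy, rfl⟩ := hp
    rw [Finset.mem_product] at hxy
    have hx : x ≠ -1 := (Finset.mem_erase.1 hxy.1).1
    exact Gen.no_R hq hm hqo σ hσ hL x hx (by rw [show σ (x, 0) = (y, 0) from hσp])

end Pool.Agent.TransFree
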